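import Mathlib.GroupTheory.CoprodI
import Pool.Agent.Work.MP_f65c66_pr.Count

/-!
The biregular tree as the coset graph of a free product of two finite groups.
-/

open SimpleGraph MeasureTheory Monoid Monoid.CoprodI
open scoped ENNReal

namespace Pool.Agent.Work.MP_f65c66_pr

lemma acyclic_of_rank {V : Type*} {G : SimpleGraph V} (r : V → ℕ)
    (h : ∀ v w w', G.Adj v w → G.Adj v w' → r w ≤ r v → r w' ≤ r v → w = w') : G.IsAcyclic := by
  classical
  intro v c hc
  obtain ⟨u, hu, hmax⟩ := c.support.toFinset.exists_max_image r ⟨v, by simp⟩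
  simp only [List.mem_toFinset] at hu hmax
  have hc' := hc.rotate hu
  have key : ∀ i, r ((c.rotate u hu).getVert i) ≤ r u := fun i =>
    hmax _ ((c.mem_support_rotate_iff u hu).1 (Walk.getVert_mem_support _ i))
  exact hc'.snd_ne_penultimate (h u _ _ (Walk.adj_snd hc'.not_nil)
    (Walk.adj_penultimate hc'.not_nil).symm (key _) (key _))

variable {M : Bool → Type} [∀ t, Group (M t)] [∀ t, DecidableEq (M t)]

/-- The reduced word of `g` without its first letter if that letter lies in `M t`. -/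
def tl (t : Bool) (g : CoprodI M) : Word M := (Word.equivPair t (g • Word.empty)).tail

lemma tl_mul (t : Bool) (h : M t) (g : CoprodI M) : tl t (of h * g) = tl t g := by
  unfold tl
  rw [mul_smul, Word.equivPair_smul_same]

lemma eq_mul_tl (t : Bool) (g : CoprodI M) : ∃ h : M t, g = of h * (tl t g).prod :=
  ⟨(Word.equivPair t (g • Word.empty)).head, by
    unfold tl
    rw [← Word.prod_smul, Word.equivPair_head_smul_equivPair_tail, Word.prod_smul]
    simp⟩

lemma tl_eq_iff {t : Bool} {g g' : CoprodI M} : tl t g = tl t g' ↔ ∃ h : M t, g' = of h * g := by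
  refine ⟨fun e => ?_, fun ⟨h, e⟩ => by rw [e, tl_mul]⟩
  obtain ⟨h, e1⟩ := eq_mul_tl t g
  obtain ⟨h', e2⟩ := eq_mul_tl t g'
  refine ⟨h' * h⁻¹, ?_⟩
  rw [← e] at e2
  generalize (tl t g).prod = x at e1 e2
  rw [e1, e2]
  simp [mul_assoc]

lemma tl_len {t : Bool} {w : Word M} (hw : w.fstIdx ≠ some t) {h : M t} (h1 : h ≠ 1) :
    (tl (!t) (of h * w.prod)).toList.length = w.toList.length + 1 := by
  have e : w.prod • (Word.empty : Word M) = w := Word.equiv.right_inv w
  unfold tl
  rw [mul_smul, e, ← Word.cons_eq_smul (h1 := hw) (h2 := h1),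
    Word.equivPair_eq_of_fstIdx_ne (by simp)]
  simp

lemma tl_ne (t : Bool) (g : CoprodI M) : (tl t g).fstIdx ≠ some t :=
  (Word.equivPair t _).fstIdx_ne

lemma of_eq_of {t : Bool} {h : M t} {k : M (!t)} (e : (of h : CoprodI M) = of k) : h = 1 := by
  by_contra h1
  have a := tl_len (w := (Word.empty : Word M)) (by simp [Word.fstIdx]) h1
  rw [e, tl_mul] at a
  unfold tl at a
  rw [Word.prod_empty, one_smul, Word.equivPair_eq_of_fstIdx_ne (by simp [Word.fstIdx])] at a
  simp at a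

variable (M) in
/-- A numbering of the cosets of the two factors. -/
structure Cod where
  /-- the number of the coset of type `t` through `g` -/
  vx : Bool → CoprodI M → ℕ
  /-- the length of the reduced representative -/
  r : ℕ → ℕ
  surj : ∀ v, ∃ t g, vx t g = v
  eq_iff : ∀ t t' g g', vx t g = vx t' g' ↔ t = t' ∧ tl t g = tl t' g'
  rank : ∀ t g, r (vx t g) = (tl t g).toList.length

lemma exists_cod [∀ t, Finite (M t)] [∀ t, Nontrivial (M t)] : Nonempty (Cod M) := by
  let f := fun p : Bool × CoprodI M => (p.1, tl p.1 p.2)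
  have c1 : Countable (Word M) := Function.Injective.countable fun _ _ => Word.ext
  have c2 : Infinite (Set.range f) := by
    by_contra hf
    rw [not_infinite_iff_finite] at hf
    obtain ⟨⟨_, ⟨t, g⟩, rfl⟩, hm⟩ :=
      Finite.exists_max (fun x : Set.range f => x.1.2.toList.length)
    obtain ⟨h, h1⟩ := exists_ne (1 : M t)
    have := hm ⟨_, ⟨!t, of h * (tl t g).prod⟩, rfl⟩
    simp only [f] at this
    rw [tl_len (tl_ne t g) h1] at this
    exact Nat.not_succ_le_self _ this
  obtain ⟨e⟩ : Nonempty (Set.range f ≃ ℕ) := inferInstance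
  refine ⟨⟨fun t g => e ⟨_, ⟨t, g⟩, rfl⟩, fun v => (e.symm v).1.2.toList.length, fun v => ?_,
    fun t t' g g' => ?_, fun t g => ?_⟩⟩
  · obtain ⟨⟨_, ⟨t, g⟩, rfl⟩, rfl⟩ := e.surjective v
    exact ⟨t, g, rfl⟩
  · simp [f]
  · simp [f]

namespace Cod

variable (C : Cod M)

/-- The coset graph. -/
def gr : SimpleGraph ℕ where
  Adj u v := ∃ t g, u = C.vx t g ∧ v = C.vx (!t) g
  symm := ⟨fun _ _ ⟨t, g, h1, h2⟩ => ⟨!t, g, h2, by simpa using h1⟩⟩
  loopless := ⟨fun _ ⟨t, g, h1, h2⟩ => by simpa using ((C.eq_iff ..).1 (h1.symm.trans h2)).1⟩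

lemma vx_eq {t : Bool} {g g' : CoprodI M} : C.vx t g = C.vx t g' ↔ ∃ h : M t, g' = of h * g := by
  simp [C.eq_iff, tl_eq_iff]

lemma vx_mul (t : Bool) (h : M t) (g : CoprodI M) : C.vx t (of h * g) = C.vx t g :=
  (C.vx_eq.2 ⟨h, rfl⟩).symm

lemma nbr (t : Bool) (g : CoprodI M) :
    C.gr.neighborSet (C.vx t g) = Set.range fun h : M t => C.vx (!t) (of h * g) := by
  ext v
  constructor
  · rintro ⟨t', g', h1, rfl⟩
    obtain rfl := ((C.eq_iff ..).1 h1).1
    obtain ⟨h, rfl⟩ := C.vx_eq.1 h1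
    exact ⟨h, rfl⟩
  · rintro ⟨h, rfl⟩
    exact ⟨t, of h * g, (C.vx_mul t h g).symm, rfl⟩

lemma deg (t : Bool) (g : CoprodI M) : (C.gr.neighborSet (C.vx t g)).ncard = Nat.card (M t) := by
  rw [nbr, ← Nat.card_coe_set_eq]
  refine Nat.card_range_of_injective fun h h' e => ?_
  obtain ⟨k, e⟩ := C.vx_eq.1 e
  have : (of (h' * h⁻¹) : CoprodI M) = of k := by
    rw [← mul_assoc, mul_left_inj] at e
    simp [e]
  exact (mul_inv_eq_one.1 (of_eq_of this)).symm

lemma reach (t t' : Bool) (g : CoprodI M) : C.gr.Reachable (C.vx t g) (C.vx t' g) := by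
  by_cases e : t' = t
  · rw [e]
  · obtain rfl : t' = !t := Bool.eq_not_iff.2 e
    exact Adj.reachable ⟨t, g, rfl, rfl⟩

lemma isTree : C.gr.IsTree := by
  have k : ∀ g, C.gr.Reachable (C.vx false 1) (C.vx false g) := fun g => by
    induction g using CoprodI.induction_left with
    | one => rfl
    | @mul i m x ih => exact ih.trans ((C.reach false i x).trans (C.vx_mul i m x ▸ C.reach i false _))
  have k2 : ∀ v, C.gr.Reachable (C.vx false 1) v := fun v => by
    obtain ⟨t, g, rfl⟩ := C.surj v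
    exact (k g).trans (C.reach _ _ _)
  refine ⟨⟨fun u v => (k2 u).symm.trans (k2 v)⟩, acyclic_of_rank C.r fun v w w' a a' b b' => ?_⟩
  obtain ⟨t, g, rfl⟩ := C.surj v
  have key : ∀ w, C.gr.Adj (C.vx t g) w → C.r w ≤ C.r (C.vx t g) →
      w = C.vx (!t) (tl t g).prod := by
    intro w a b
    obtain ⟨k, e⟩ := eq_mul_tl t g
    have e2 : C.vx t g = C.vx t (tl t g).prod := by rw [← C.vx_mul t k (tl t g).prod, ← e]
    obtain ⟨h, rfl⟩ := (C.nbr t _).subset (e2 ▸ a)
    by_cases h1 : h = 1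
    · simp [h1]
    · rw [C.rank, C.rank, tl_len (tl_ne t g) h1] at b
      exact absurd b (Nat.not_succ_le_self _)
  rw [key w a b, key w' a' b']

lemma exists_map (x : CoprodI M) : ∃ f : ℕ → ℕ, ∀ t g, f (C.vx t g) = C.vx t (g * x) := by
  choose ty rep h using C.surj
  refine ⟨fun v => C.vx (ty v) (rep v * x), fun t g => ?_⟩
  have e := h (C.vx t g)
  beta_reduce
  generalize ty (C.vx t g) = t' at e ⊢
  generalize rep (C.vx t g) = y at e ⊢
  obtain rfl := ((C.eq_iff ..).1 e).1
  obtain ⟨k, rfl⟩ := C.vx_eq.1 e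
  rw [mul_assoc, vx_mul]

lemma exists_iso (x : CoprodI M) :
    ∃ φ : C.gr ≃g C.gr, ∀ t g, φ (C.vx t g) = C.vx t (g * x) := by
  choose f hf using C.exists_map
  have inv : ∀ x v, f x⁻¹ (f x v) = v := fun x v => by
    obtain ⟨t, g, rfl⟩ := C.surj v
    simp [hf]
  have adj : ∀ x u v, C.gr.Adj u v → C.gr.Adj (f x u) (f x v) := by
    rintro x _ _ ⟨t, g, rfl, rfl⟩
    exact ⟨t, g * x, hf .., hf ..⟩
  refine ⟨⟨⟨f x, f x⁻¹, inv x, fun v => by simpa using inv x⁻¹ v⟩, fun {u v} =>
    ⟨fun h => ?_, adj x u v⟩⟩, hf x⟩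
  simpa [inv] using adj x⁻¹ _ _ h

lemma tsum_eq [∀ t, Finite (M t)] (f : ℕ → ℝ≥0∞) :
    ∑' v, f v = ∑ t, (Nat.card (M t) : ℝ≥0∞)⁻¹ * ∑' g, f (C.vx t g) := by
  classical
  have one : ∀ v, ∑ t, (Nat.card (M t) : ℝ≥0∞)⁻¹ * ∑' g, (if v = C.vx t g then 1 else 0) = 1 := by
    intro v
    obtain ⟨t, x, rfl⟩ := C.surj v
    rw [Finset.sum_eq_single t (fun t' _ ht => ?_) (by simp)]
    · have : ∑' g, (if C.vx t x = C.vx t g then 1 else 0 : ℝ≥0∞) = Nat.card (M t) := by
        have i : Function.Injective fun h : M t => (of h : CoprodI M) * x :=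
          fun a b e => of_injective t (mul_right_cancel e)
        have s := ENNReal.tsum_set_one (Set.range fun h : M t => (of h : CoprodI M) * x)
        rw [tsum_subtype _ fun _ => (1 : ℝ≥0∞), ← (Set.finite_range _).cast_ncard_eq,
          ← Nat.card_coe_set_eq, Nat.card_range_of_injective i] at s
        refine Eq.trans (tsum_congr fun g => ?_) (s.trans (by simp))
        simp only [Set.indicator_apply, vx_eq, Set.mem_range, eq_comm (a := g)]
      rw [this, ENNReal.inv_mul_cancel (by simpa using Nat.card_pos.ne') (by simp)]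
    · simp [C.eq_iff, ht.symm]
  calc ∑' v, f v = ∑' v, ∑ t, (Nat.card (M t) : ℝ≥0∞)⁻¹ *
        ∑' g, (if v = C.vx t g then f v else 0) := by
        refine tsum_congr fun v => ?_
        refine ((one_mul _).symm.trans (congrArg (· * f v) (one v).symm)).trans ?_
        simp only [Finset.sum_mul, mul_assoc, ← ENNReal.tsum_mul_right, ite_mul, one_mul, zero_mul]
    _ = _ := by
        rw [Summable.tsum_finsetSum fun _ _ => ENNReal.summable]
        refine Finset.sum_congr rfl fun t _ => ?_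
        rw [ENNReal.tsum_mul_left, ENNReal.tsum_comm]
        simp

/-- The law of the rooted biregular tree. -/
noncomputable def law (Z : ℝ≥0∞) : Measure (SimpleGraph ℕ × ℕ) :=
  ∑ t, (Z * (Nat.card (M t) : ℝ≥0∞)⁻¹) • Measure.dirac (C.gr, C.vx t 1)

lemma unimodular [∀ t, Finite (M t)] (Z : ℝ≥0∞) : IsUnimodular (C.law Z) := by
  intro F hF hinv
  have m1 : Measurable fun p : SimpleGraph ℕ × ℕ => ∑' v, F (p.1, p.2, v) :=
    Measurable.tsum fun v => hF.comp (by fun_prop)
  have m2 : Measurable fun p : SimpleGraph ℕ × ℕ => ∑' v, F (p.1, v, p.2) :=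
    Measurable.tsum fun v => hF.comp (by fun_prop)
  have e : ∀ t t', ∑' g, F (C.gr, C.vx t' g, C.vx t 1) = ∑' g, F (C.gr, C.vx t' 1, C.vx t g) := by
    intro t t'
    rw [← (Equiv.inv _).tsum_eq]
    refine tsum_congr fun g => ?_
    obtain ⟨φ, hφ⟩ := C.exists_iso g
    rw [← hinv _ _ φ, hφ, hφ]
    simp
  simp only [law, lintegral_finsetSum_measure, lintegral_smul_measure, lintegral_dirac' _ m1,
    lintegral_dirac' _ m2, smul_eq_mul]
  simp only [C.tsum_eq fun v => F (C.gr, _, v), C.tsum_eq fun v => F (C.gr, v, _), e,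
    Fintype.sum_bool]
  ring

end Cod

end Pool.Agent.Work.MP_f65c66_pr
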