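import Pool.Agent.Work.MP_f65c66_pr.Hedge.Tr

/-!
The lower bound `(E deg - 2) ^ 2 / (2 E deg ^ 2)` for the density of a line ensemble.
-/

open SimpleGraph MeasureTheory
open scoped ENNReal

namespace Pool.Agent.Work.MP_f65c66_pr

variable {k : ℕ} {μ : Measure (SimpleGraph ℕ × ℕ)}

/-- Rooted graphs with labels. -/
abbrev Lab : Type := (SimpleGraph ℕ × ℕ) × (ℕ → ℝ)

/-- Mass transport for functions that depend on the labels. -/
lemma mtp_lab [SFinite μ] (hμ : IsUnimodular μ)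
    {F : (SimpleGraph ℕ × ℕ × ℕ) × (ℕ → ℝ) → ℝ≥0∞} (hF : Measurable F)
    (hinv : ∀ (G G' : SimpleGraph ℕ) (φ : G ≃g G') (U : ℕ → ℝ) (u v : ℕ),
      F ((G', φ u, φ v), U) = F ((G, u, v), fun i => U (φ i))) :
    ∫⁻ z : Lab, ∑' v, F ((z.1.1, z.1.2, v), z.2) ∂μ.prod lam =
      ∫⁻ z : Lab, ∑' v, F ((z.1.1, v, z.1.2), z.2) ∂μ.prod lam := by
  have key := hμ (fun t => ∫⁻ U, F (t, U) ∂lam) hF.lintegral_prod_right' fun G G' φ u v => by
    simp only [hinv]
    exact lintegral_lam_comp φ.injective (hF.comp (measurable_prodMk_left (x := (G, u, v))))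
  have m1 : Measurable fun z : Lab => ∑' v, F ((z.1.1, z.1.2, v), z.2) :=
    Measurable.tsum fun v => hF.comp (by fun_prop)
  have m2 : Measurable fun z : Lab => ∑' v, F ((z.1.1, v, z.1.2), z.2) :=
    Measurable.tsum fun v => hF.comp (by fun_prop)
  rw [lintegral_prod _ m1.aemeasurable, lintegral_prod _ m2.aemeasurable]
  refine Eq.trans (lintegral_congr fun p => ?_) (key.trans (lintegral_congr fun p => ?_))
  · exact lintegral_tsum fun v =>
      (hF.comp (measurable_prodMk_left (x := (p.1, p.2, v)))).aemeasurable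
  · exact (lintegral_tsum fun v =>
      (hF.comp (measurable_prodMk_left (x := (p.1, v, p.2)))).aemeasurable).symm

lemma measurable_rel2 {R : SimpleGraph ℕ → (ℕ → ℝ) → ℕ → ℕ → Prop}
    (hR : ∀ u v, Measurable fun z : SimpleGraph ℕ × (ℕ → ℝ) => R z.1 z.2 u v)
    {Ω : Type*} [MeasurableSpace Ω] {G : Ω → SimpleGraph ℕ} {U : Ω → ℕ → ℝ} {u v : Ω → ℕ}
    (hG : Measurable G) (hU : Measurable U) (hu : Measurable u) (hv : Measurable v) :
    Measurable fun ω => R (G ω) (U ω) (u ω) (v ω) :=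
  measurable_at (f := fun (z : ℕ × ℕ) ω => R (G ω) (U ω) z.1 z.2)
    (fun z => (hR z.1 z.2).comp (hG.prodMk hU)) (hu.prodMk hv)

lemma mtp_cnt2 [SFinite μ] (hμ : IsUnimodular μ) {R : SimpleGraph ℕ → (ℕ → ℝ) → ℕ → ℕ → Prop}
    (hR : ∀ u v, Measurable fun z : SimpleGraph ℕ × (ℕ → ℝ) => R z.1 z.2 u v)
    (hinv : ∀ (G G' : SimpleGraph ℕ) (φ : G ≃g G') (U : ℕ → ℝ) (u v : ℕ),
      R G' U (φ u) (φ v) ↔ R G (fun i => U (φ i)) u v) :
    ∫⁻ z : Lab, cnt (R z.1.1 z.2 z.1.2) ∂μ.prod lam =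
      ∫⁻ z : Lab, cnt (fun v => R z.1.1 z.2 v z.1.2) ∂μ.prod lam := by
  have hm : MeasurableSet {q : (SimpleGraph ℕ × ℕ × ℕ) × (ℕ → ℝ) | R q.1.1 q.2 q.1.2.1 q.1.2.2} :=
    (measurable_rel2 hR (by fun_prop) (by fun_prop) (by fun_prop) (by fun_prop)).setOf
  have := mtp_lab hμ (measurable_one.indicator hm) (by
    intro G G' φ U u v
    classical
    simp only [Set.indicator_apply, Set.mem_ofPred_eq, hinv, Pi.one_apply])
  simp only [← tsum_indicator_eq_cnt]
  exact this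

lemma measurable_cnt2 {R : SimpleGraph ℕ → (ℕ → ℝ) → ℕ → ℕ → Prop}
    (hR : ∀ u v, Measurable fun z : SimpleGraph ℕ × (ℕ → ℝ) => R z.1 z.2 u v) :
    Measurable fun z : Lab => cnt (R z.1.1 z.2 z.1.2) :=
  measurable_cnt fun _ => measurable_rel2 hR (by fun_prop) (by fun_prop) (by fun_prop) (by fun_prop)

lemma all_finite (hμ : IsUnimodular μ) (hf : ∀ᵐ p ∂μ, (p.1.neighborSet p.2).Finite) :
    ∀ᵐ p ∂μ, ∀ v, (p.1.neighborSet v).Finite := by
  have hR : ∀ u v : ℕ, Measurable fun G : SimpleGraph ℕ => ¬ (G.neighborSet v).Finite :=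
    fun u v => (measurable_finite (measurable_neighborSet measurable_id v)).not
  have h := mtp_cnt hμ (R := fun G _ v => ¬ (G.neighborSet v).Finite) hR fun G G' φ u v => by
    rw [← Set.encard_lt_top_iff, ← Set.encard_lt_top_iff, encard_neighborSet_iso]
  have h0 : ∫⁻ p, cnt (fun _ => ¬ (p.1.neighborSet p.2).Finite) ∂μ = 0 := by
    rw [← lintegral_zero (μ := μ)]
    refine lintegral_congr_ae ?_
    filter_upwards [hf] with p hp
    simp [cnt, hp]
  have hm : Measurable fun p : SimpleGraph ℕ × ℕ => cnt fun v => ¬ (p.1.neighborSet v).Finite :=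
    measurable_cnt fun v => (hR v v).comp measurable_fst
  rw [h0, lintegral_eq_zero_iff hm] at h
  filter_upwards [h] with p hp v
  by_contra hv
  simp only [cnt, Pi.zero_apply, ENat.toENNReal_eq_zero, Set.encard_eq_zero] at hp
  exact Set.eq_empty_iff_forall_notMem.1 hp v hv

/-- The marked rooted graph. -/
noncomputable def Ps (k : ℕ) (a : Fin k) (z : Lab) : SimpleGraph ℕ × SimpleGraph ℕ × ℕ :=
  (z.1.1, lat k z.1.1 z.2 z.1.2 a, z.1.2)

lemma measurable_Ps (a : Fin k) : Measurable (Ps k a) :=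
  measurable_fst.fst.prodMk
    ((measurable_lat measurable_fst.fst measurable_snd measurable_fst.snd a).prodMk
      measurable_fst.snd)

/-- Its law. -/
noncomputable def nt (k : ℕ) (μ : Measure (SimpleGraph ℕ × ℕ)) :
    Measure (SimpleGraph ℕ × SimpleGraph ℕ × ℕ) :=
  (k : ℝ≥0∞)⁻¹ • ∑ a : Fin k, (μ.prod lam).map (Ps k a)

lemma lintegral_nt {f : SimpleGraph ℕ × SimpleGraph ℕ × ℕ → ℝ≥0∞} (hf : Measurable f) :
    ∫⁻ q, f q ∂nt k μ = (k : ℝ≥0∞)⁻¹ * ∫⁻ z, ∑ a, f (Ps k a z) ∂μ.prod lam := by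
  unfold nt
  have m : ∀ a ∈ Finset.univ, Measurable fun z => f (Ps k a z) :=
    fun a _ => hf.comp (measurable_Ps a)
  rw [lintegral_smul_measure, lintegral_finsetSum_measure, smul_eq_mul, lintegral_finsetSum _ m]
  exact congrArg _ (Finset.sum_congr rfl fun a _ => lintegral_map hf (measurable_Ps a))

lemma lintegral_fst [SFinite μ] {f : SimpleGraph ℕ × ℕ → ℝ≥0∞} (hf : Measurable f) :
    ∫⁻ z : Lab, f z.1 ∂μ.prod lam = ∫⁻ p, f p ∂μ := by
  have m : Measurable fun z : Lab => f z.1 := hf.comp measurable_fst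
  rw [lintegral_prod _ m.aemeasurable]
  simp

lemma map_nt (hk : k ≠ 0) [IsProbabilityMeasure μ] : (nt k μ).map (fun q => (q.1, q.2.2)) = μ := by
  have hm : Measurable fun q : SimpleGraph ℕ × SimpleGraph ℕ × ℕ => (q.1, q.2.2) := by fun_prop
  ext s hs
  rw [← lintegral_indicator_one hs, lintegral_map (measurable_one.indicator hs) hm,
    lintegral_nt (f := fun q => s.indicator 1 (q.1, q.2.2))
      ((measurable_one.indicator hs).comp hm), ← lintegral_indicator_one hs,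
    ← lintegral_fst (measurable_one.indicator hs)]
  simp only [Ps, Finset.sum_const, Finset.card_univ, Fintype.card_fin, nsmul_eq_mul]
  have m : Measurable fun z : Lab => s.indicator (1 : SimpleGraph ℕ × ℕ → ℝ≥0∞) z.1 :=
    (measurable_one.indicator hs).comp measurable_fst
  rw [lintegral_const_mul _ m, ← mul_assoc,
    ENNReal.inv_mul_cancel (by simpa using hk) (by simp), one_mul]

lemma isProb_nt (hk : k ≠ 0) [IsProbabilityMeasure μ] : IsProbabilityMeasure (nt k μ) := by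
  have hm : Measurable fun q : SimpleGraph ℕ × SimpleGraph ℕ × ℕ => (q.1, q.2.2) := by fun_prop
  constructor
  have := congrArg (fun m : Measure (SimpleGraph ℕ × ℕ) => m Set.univ) (map_nt (μ := μ) hk)
  simpa [Measure.map_apply hm MeasurableSet.univ] using this

lemma unimodular_nt [SFinite μ] (hμ : IsUnimodular μ) (htree : ∀ᵐ p ∂μ, p.1.IsTree) :
    IsUnimodularMarked (nt k μ) := by
  intro F hF hinv
  have key := mtp_lab hμ (F := fun z => ∑ a, F (z.1.1, lat k z.1.1 z.2 z.1.2.1 a, z.1.2))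
    (Finset.measurable_sum _ fun a _ => hF.comp (measurable_fst.fst.prodMk
      ((measurable_lat measurable_fst.fst measurable_snd measurable_fst.snd.fst a).prodMk
        measurable_fst.snd)))
    fun G G' φ U u v => Finset.sum_congr rfl fun a _ =>
      hinv G G' _ _ φ (lat_iso φ (fun _ => rfl) u a) u v
  have m1 : Measurable fun q : SimpleGraph ℕ × SimpleGraph ℕ × ℕ =>
      ∑' v, F (q.1, q.2.1, q.2.2, v) := Measurable.tsum fun v => hF.comp (by fun_prop)
  have m2 : Measurable fun q : SimpleGraph ℕ × SimpleGraph ℕ × ℕ =>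
      ∑' v, F (q.1, q.2.1, v, q.2.2) := Measurable.tsum fun v => hF.comp (by fun_prop)
  rw [lintegral_nt m1, lintegral_nt m2]
  congr 1
  refine Eq.trans (lintegral_congr fun z => ?_) (key.trans (lintegral_congr_ae ?_))
  · exact (Summable.tsum_finsetSum fun a _ => ENNReal.summable).symm
  filter_upwards [Measure.quasiMeasurePreserving_fst.ae htree] with z hz
  refine Eq.trans (tsum_congr fun v => ?_) (Summable.tsum_finsetSum fun a _ => ENNReal.summable)
  exact sum_lat hz z.2 v z.1.2 fun L => F (z.1.1, L, v, z.1.2)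

/-- The good labelled trees. -/
def Good (z : Lab) : Prop :=
  z.1.1.IsTree ∧ (∀ v, (z.1.1.neighborSet v).Finite) ∧ Function.Injective z.2

lemma ae_line_nt (h : ∀ᵐ z ∂μ.prod lam, Good z) : ∀ᵐ q ∂nt k μ, IsLineEnsemble q.1 q.2.1 := by
  unfold nt
  refine Measure.ae_smul_measure ?_ _
  rw [ae_finsetSum_measure_iff]
  intro a _
  rw [ae_map_iff (measurable_Ps a).aemeasurable measurableSet_line]
  filter_upwards [h] with z hz
  exact ⟨(lines_le _).trans tr_le, lat_encard hz.1 hz.2.1 hz.2.2 _ a⟩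

lemma cnt_eq_ncard {P : ℕ → Prop} (h : {v | P v}.Finite) : cnt P = ({v | P v}.ncard : ℝ≥0∞) := by
  unfold cnt
  rw [← h.cast_ncard_eq]
  simp

lemma measurableSet_meets :
    MeasurableSet {q : SimpleGraph ℕ × SimpleGraph ℕ × ℕ | ∃ w, q.2.1.Adj q.2.2 w} :=
  Measurable.setOf (Measurable.exists fun _ =>
    measurable_rel (R := SimpleGraph.Adj) (measurable_adj' measurable_id) measurable_snd.fst
      measurable_snd.snd measurable_const)

lemma density_nt (h : ∀ᵐ z ∂μ.prod lam, Good z) :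
    (k : ℝ≥0∞)⁻¹ * ∫⁻ z : Lab, cnt (Core (tr k z.1.1 z.2) z.1.2) ∂μ.prod lam ≤
      nt k μ {q | ∃ w, q.2.1.Adj q.2.2 w} := by
  rw [← lintegral_indicator_one measurableSet_meets,
    lintegral_nt (measurable_one.indicator measurableSet_meets)]
  refine mul_le_mul_right (lintegral_mono_ae ?_) _
  filter_upwards [h] with z hz
  have hd := tr_deg (k := k) (hz.2.1 z.1.2) hz.2.2
  have hkd := core_le z.1.2 hd
  rw [cnt_eq_ncard ((Set.finite_of_encard_le_coe hd).subset (coreNbr_subset z.1.2))]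
  change ((coreNbr (tr k z.1.1 z.2) z.1.2).ncard : ℝ≥0∞) ≤ _
  set c := (coreNbr (tr k z.1.1 z.2) z.1.2).ncard
  have h1 : (c : ℝ≥0∞) = ∑ a : Fin k, if (a : ℕ) < c then 1 else 0 := by
    rw [Finset.sum_boole, Fin.card_filter_val_lt, min_eq_right hkd]
  rw [h1]
  refine Finset.sum_le_sum fun a _ => ?_
  split_ifs with ha
  · rw [Set.indicator_of_mem]
    · rfl
    · exact lat_root hz.1 hz.2.1 hz.2.2 _ a ha
  · exact zero_le

lemma core_bound2 [IsProbabilityMeasure μ] (hμ : IsUnimodular μ) (hk : 3 ≤ k)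
    (h : ∀ᵐ z ∂μ.prod lam, Good z) {D S : ℝ≥0∞} (hS : S ≠ ∞) (hDS : D ≤ S)
    (eD : ∫⁻ p, cnt (p.1.Adj p.2) ∂μ = D) (eS : ∫⁻ p, cnt (p.1.Adj p.2) ^ 2 ∂μ = S) :
    D.toReal - 2 - S.toReal / (2 * k) ≤
      (k - 2) * (nt k μ).real {q | ∃ w, q.2.1.Adj q.2.2 w} := by
  have := isProb_nt (μ := μ) (k := k) (by omega)
  have mT : Measurable fun z : SimpleGraph ℕ × (ℕ → ℝ) => tr k z.1 z.2 :=
    measurable_tr measurable_fst measurable_snd
  have mX := measurable_dl (k := k) (Ω := SimpleGraph ℕ × (ℕ → ℝ)) measurable_fst measurable_snd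
  have mQ := measurable_out mT measurable_snd
  have cX := measurable_cnt2 (R := Dl k) mX
  have cQ := measurable_cnt2 (R := fun G U => Out (tr k G U) U) mQ
  have cH := measurable_cnt2 (R := fun G U => (tr k G U).Adj) (measurable_adj' mT)
  have cK := measurable_cnt2 (R := fun G U => Core (tr k G U)) (measurable_core mT)
  have tX := mtp_cnt2 hμ (R := Dl k) mX fun G G' φ U => dl_iso φ fun _ => rfl
  have tQ := mtp_cnt2 hμ (R := fun G U => Out (tr k G U) U) mQ fun G G' φ U =>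
    out_iso (trIso k φ fun _ => rfl) fun _ => rfl
  have h5 := density_nt (k := k) h
  have p1 : ∀ z : Lab, cnt (z.1.1.Adj z.1.2) ≤ cnt ((tr k z.1.1 z.2).Adj z.1.2) +
      (cnt (Dl k z.1.1 z.2 z.1.2) + cnt fun v => Dl k z.1.1 z.2 v z.1.2) := fun z =>
    cnt_le_add fun v hv => by
      by_contra c
      simp only [not_or] at c
      exact c.1 ⟨hv, c.2⟩
  have p3 : ∀ z : Lab, cnt ((tr k z.1.1 z.2).Adj z.1.2) ≤ cnt (Core (tr k z.1.1 z.2) z.1.2) +
      (cnt (Out (tr k z.1.1 z.2) z.2 z.1.2) + cnt fun v => Out (tr k z.1.1 z.2) z.2 v z.1.2) :=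
    fun z => cnt_le_add fun v hv => core_or_out z.2 hv
  have h1 := lintegral_mono (μ := μ.prod lam) p1
  have h3 := lintegral_mono (μ := μ.prod lam) p3
  rw [lintegral_add_left cH, lintegral_add_left cX, ← tX, lintegral_fst measurable_cnt_adj,
    eD] at h1
  rw [lintegral_add_left cK, lintegral_add_left cQ, ← tQ] at h3
  rw [← lintegral_fst (measurable_cnt_adj.pow_const 2)] at eS
  set X := ∫⁻ z : Lab, cnt (Dl k z.1.1 z.2 z.1.2) ∂μ.prod lam
  set q := ∫⁻ z : Lab, cnt (Out (tr k z.1.1 z.2) z.2 z.1.2) ∂μ.prod lam with hq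
  set E := ∫⁻ z : Lab, cnt ((tr k z.1.1 z.2).Adj z.1.2) ∂μ.prod lam
  set K := ∫⁻ z : Lab, cnt (Core (tr k z.1.1 z.2) z.1.2) ∂μ.prod lam
  have h2 : 4 * k * X ≤ S := by
    rw [← eS, ← lintegral_const_mul _ cX]
    refine lintegral_mono_ae ?_
    filter_upwards [h] with z hz
    have a1 : cnt (Dl k z.1.1 z.2 z.1.2) ≤ ((z.1.1.neighborSet z.1.2).ncard - k : ℕ) := by
      unfold cnt
      exact_mod_cast dl_card (hz.2.1 z.1.2) hz.2.2
    rw [cnt_eq_ncard (P := z.1.1.Adj z.1.2) (hz.2.1 _)]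
    refine (mul_le_mul_right a1 _).trans ?_
    change _ ≤ ((z.1.1.neighborSet z.1.2).ncard : ℝ≥0∞) ^ 2
    generalize (z.1.1.neighborSet z.1.2).ncard = n
    have : 4 * k * (n - k) ≤ n ^ 2 := by
      rcases le_total n k with a | a
      · simp [Nat.sub_eq_zero_of_le a]
      · obtain ⟨t, rfl⟩ := Nat.exists_eq_add_of_le a
        rw [Nat.add_sub_cancel_left]
        zify
        nlinarith [sq_nonneg ((k : ℤ) - t)]
    exact_mod_cast this
  have h4 : E + k * q ≤ k + (q + q) := by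
    rw [← lintegral_const_mul _ cQ, ← lintegral_add_left cH]
    refine (lintegral_mono_ae (g := fun z : Lab => k + (cnt (Out (tr k z.1.1 z.2) z.2 z.1.2) +
      cnt fun v => Out (tr k z.1.1 z.2) z.2 v z.1.2)) ?_).trans ?_
    · filter_upwards [h] with z hz
      exact cnt_out_add_le (hz.1.isAcyclic.anti tr_le) hz.2.2 _ (tr_deg (hz.2.1 _) hz.2.2)
    · rw [lintegral_add_left measurable_const, lintegral_add_left cQ, ← tQ]
      simp [hq]
  have q1 : q ≤ 1 := by
    refine (lintegral_mono_ae (g := fun _ => 1) ?_).trans (by simp)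
    filter_upwards [h] with z hz
    exact cnt_le_one fun a b ha hb => ha.unique (hz.1.isAcyclic.anti tr_le) hz.2.2 hb
  have k0 : (k : ℝ≥0∞) ≠ 0 := by simpa using (by omega : k ≠ 0)
  have fq : q ≠ ∞ := ne_top_of_le_ne_top (by simp) q1
  have fE : E ≠ ∞ := ne_top_of_le_ne_top (by simp [fq]) (le_self_add.trans h4)
  have fX : X ≠ ∞ := fun e => hS (top_le_iff.1 (by rwa [e, ENNReal.mul_top (by simp [k0])] at h2))
  have fN := measure_ne_top (nt k μ) {q | ∃ w, q.2.1.Adj q.2.2 w}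
  have fK : K ≠ ∞ := fun e => fN (top_le_iff.1 (by rwa [e, ENNReal.mul_top (by simp)] at h5))
  have fD : D ≠ ∞ := ne_top_of_le_ne_top hS hDS
  rw [measureReal_def]
  generalize nt k μ {q | ∃ w, q.2.1.Adj q.2.2 w} = N at h5 fN
  clear_value X q E K
  lift X to NNReal using fX
  lift q to NNReal using fq
  lift E to NNReal using fE
  lift K to NNReal using fK
  lift D to NNReal using fD
  lift S to NNReal using hS
  lift N to NNReal using fN
  rw [← ENNReal.div_eq_inv_mul, ENNReal.div_le_iff k0 (by simp)] at h5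
  have r1 : (D : ℝ) ≤ E + (X + X) := by exact_mod_cast h1
  have r2 : 4 * (k : ℝ) * X ≤ S := by exact_mod_cast h2
  have r3 : (E : ℝ) ≤ K + (q + q) := by exact_mod_cast h3
  have r4 : (E : ℝ) + k * q ≤ k + (q + q) := by exact_mod_cast h4
  have r5 : (K : ℝ) ≤ N * k := by exact_mod_cast h5
  have k3 : (3 : ℝ) ≤ k := by exact_mod_cast hk
  have r6 : (X : ℝ) + X ≤ S / (2 * k) := by
    rw [le_div_iff₀ (by positivity)]
    linarith
  have r7 : (k : ℝ) * (E - 2) ≤ k * ((k - 2) * N) := by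
    nlinarith [mul_le_mul_of_nonneg_left (r3.trans (add_le_add_left r5 _)) (sub_nonneg.2
      ((by norm_num : (2 : ℝ) ≤ 3).trans k3))]
  have r8 := le_of_mul_le_mul_left r7 (by positivity)
  simp only [ENNReal.coe_toReal]
  linarith

theorem low (μ : Measure (SimpleGraph ℕ × ℕ)) [IsProbabilityMeasure μ]
    (htree : ∀ᵐ p ∂μ, p.1.IsTree) (hμ : IsUnimodular μ)
    (hf : ∀ᵐ p ∂μ, (p.1.neighborSet p.2).Finite)
    (hi : Integrable (fun p => ((p.1.neighborSet p.2).ncard : ℝ) ^ 2) μ) :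
    ∃ ν : Measure (SimpleGraph ℕ × SimpleGraph ℕ × ℕ), IsProbabilityMeasure ν ∧
      ν.map (fun q => (q.1, q.2.2)) = μ ∧ (∀ᵐ q ∂ν, IsLineEnsemble q.1 q.2.1) ∧
      IsUnimodularMarked ν ∧
      1 / 2 * (max ((∫ p, ((p.1.neighborSet p.2).ncard : ℝ) ∂μ) - 2) 0 ^ 2 /
        ∫ p, ((p.1.neighborSet p.2).ncard : ℝ) ^ 2 ∂μ) ≤ ν.real {q | ∃ w, q.2.1.Adj q.2.2 w} := by
  have hg : ∀ᵐ z ∂μ.prod lam, Good z := by
    filter_upwards [Measure.quasiMeasurePreserving_fst.ae htree,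
      Measure.quasiMeasurePreserving_fst.ae (all_finite hμ hf),
      Measure.quasiMeasurePreserving_snd.ae lam_injective] with z h1 h2 h3 using ⟨h1, h2, h3⟩
  have e : ∀ᵐ p ∂μ, cnt (p.1.Adj p.2) = ((p.1.neighborSet p.2).ncard : ℝ≥0∞) :=
    hf.mono fun p hp => cnt_eq_ncard (P := p.1.Adj p.2) hp
  have eD : ∫ p, ((p.1.neighborSet p.2).ncard : ℝ) ∂μ = (∫⁻ p, cnt (p.1.Adj p.2) ∂μ).toReal := by
    rw [← integral_toReal measurable_cnt_adj.aemeasurable (e.mono fun p hp => by simp [hp])]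
    exact integral_congr_ae (e.mono fun p hp => by simp [hp])
  have eS : ∫ p, ((p.1.neighborSet p.2).ncard : ℝ) ^ 2 ∂μ =
      (∫⁻ p, cnt (p.1.Adj p.2) ^ 2 ∂μ).toReal := by
    rw [← integral_toReal (measurable_cnt_adj.pow_const 2).aemeasurable
      (e.mono fun p hp => by simp [hp])]
    exact integral_congr_ae (e.mono fun p hp => by simp [hp])
  have hS : ∫⁻ p, cnt (p.1.Adj p.2) ^ 2 ∂μ ≠ ∞ := by
    refine ne_of_eq_of_ne (lintegral_congr_ae (e.mono fun p hp => ?_)) hi.2.ne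
    simp [hp]
  have hDS : ∫⁻ p, cnt (p.1.Adj p.2) ∂μ ≤ ∫⁻ p, cnt (p.1.Adj p.2) ^ 2 ∂μ :=
    lintegral_mono_ae (e.mono fun p hp => by
      rw [hp]
      exact_mod_cast Nat.le_self_pow two_ne_zero _)
  have key := fun k hk => core_bound2 (k := k) hμ hk hg hS hDS rfl rfl
  have hds := ENNReal.toReal_mono hS hDS
  rw [eD, eS]
  generalize (∫⁻ p, cnt (p.1.Adj p.2) ∂μ).toReal = m at key hds
  generalize (∫⁻ p, cnt (p.1.Adj p.2) ^ 2 ∂μ).toReal = s at key hds
  set k := ⌊s / (m - 2)⌋₊ + 2 with hk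
  have k0 : k ≠ 0 := by omega
  refine ⟨nt k μ, isProb_nt k0, map_nt k0, ae_line_nt hg, unimodular_nt hμ htree, ?_⟩
  rcases le_or_gt m 2 with hm | hm
  · rw [max_eq_right (sub_nonpos.2 hm)]
    simp
  have m0 : 0 < m - 2 := sub_pos.2 hm
  have s0 : 0 < s := by linarith
  have a1 : 1 ≤ s / (m - 2) := (one_le_div m0).2 (by linarith)
  have a2 := key k (by have := Nat.floor_pos.2 a1; omega)
  have a3 : (k : ℝ) - 2 ≤ s / (m - 2) := by
    rw [hk]
    push_cast
    linarith [Nat.floor_le (zero_le_one.trans a1)]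
  have a4 : s / (m - 2) ≤ k := by
    rw [hk]
    push_cast
    linarith [Nat.lt_floor_add_one (s / (m - 2))]
  have a5 : s / (2 * k) ≤ (m - 2) / 2 := by
    rw [div_le_iff₀ m0] at a4
    rw [div_le_iff₀ (by positivity)]
    linarith
  have a6 := a2.trans (mul_le_mul_of_nonneg_right a3 measureReal_nonneg)
  rw [div_mul_eq_mul_div, le_div_iff₀ m0] at a6
  rw [max_eq_left m0.le, ← mul_div_assoc, div_le_iff₀ s0]
  nlinarith [mul_le_mul_of_nonneg_right a5 m0.le]

end Pool.Agent.Work.MP_f65c66_pr
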