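import Pool.Agent.Work.MP_f65c66_pr.Main

/-!
Truncation of a tree to degrees at most `k`, orientation of the edges outside the core of the
truncated forest, and the line ensembles of the truncated forest.
-/

open SimpleGraph Relation MeasureTheory
open scoped ENNReal

namespace Pool.Agent.Work.MP_f65c66_pr

variable {V W : Type*}

/-- `w` is a neighbour of `v` that is not among the first `k`. -/
def Dl (k : ℕ) (G : SimpleGraph V) (U : V → ℝ) (v w : V) : Prop :=
  G.Adj v w ∧ k ≤ rk (G.neighborSet v) U w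

/-- The edges that are among the first `k` at both ends. -/
def tr (k : ℕ) (G : SimpleGraph V) (U : V → ℝ) : SimpleGraph V where
  Adj v w := G.Adj v w ∧ ¬ Dl k G U v w ∧ ¬ Dl k G U w v
  symm := ⟨fun _ _ h => ⟨h.1.symm, h.2.2, h.2.1⟩⟩
  loopless := ⟨fun _ h => h.1.ne rfl⟩

/-- The orientation of the edges outside the core. -/
def Out (H : SimpleGraph V) (U : V → ℝ) (v w : V) : Prop :=
  Par H v w ∧ ((branch H v w).Infinite ∨ ∃ y ∈ branch H v w, ∀ x ∈ branch H w v, U x ≤ U y)

/-- The line ensemble of the truncated forest through the colour `a` at `r`. -/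
noncomputable def lat (k : ℕ) (G : SimpleGraph V) (U : V → ℝ) (r : V) (a : Fin k) : SimpleGraph V :=
  lines k (tr k G U) U (Reach G (conn k (tr k G U) U) r a)

variable {k : ℕ} {G H : SimpleGraph V} {U : V → ℝ} {G' H' : SimpleGraph W} {U' : W → ℝ}

lemma tr_le : tr k G U ≤ G := fun _ _ h => h.1

lemma tr_deg {v : V} (hv : (G.neighborSet v).Finite) (hU : Function.Injective U) :
    ((tr k G U).neighborSet v).encard ≤ k := by
  rw [← Set.Nat.encard_range]
  exact Set.encard_le_encard_of_injOn (f := rk (G.neighborSet v) U)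
    (fun w hw => not_le.1 fun h => hw.2.1 ⟨hw.1, h⟩) ((rk_injOn hv hU).mono fun w hw => hw.1)

lemma dl_card {v : V} (hv : (G.neighborSet v).Finite) (hU : Function.Injective U) :
    {w | Dl k G U v w}.encard ≤ ((G.neighborSet v).ncard - k : ℕ) := by
  rw [← Nat.card_Ico, ← Set.encard_coe_eq_coe_finsetCard]
  exact Set.encard_le_encard_of_injOn (f := rk (G.neighborSet v) U)
    (fun w hw => Finset.mem_Ico.2 ⟨hw.2, rk_lt hv U hw.1⟩) ((rk_injOn hv hU).mono fun w hw => hw.1)

lemma mem_branch_of_mem {v w w' x : V} (hw : w' ≠ v) (h' : x ∈ branch H v w')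
    (h : x ∈ branch H v w) : w' ∈ branch H v w := by
  change ReflTransGen _ w' x at h'
  induction h' with
  | refl => exact h
  | @tail b c h1 h2 ih =>
    exact ih (step_mem_branch h h2.1.symm fun e => not_mem_branch hw (e ▸ h1))

lemma Out.unique (hH : H.IsAcyclic) (hU : Function.Injective U) {v w w' : V} (h : Out H U v w)
    (h' : Out H U v w') : w = w' := by
  by_contra hne
  have s1 := branch_subset_branch hH h.1.1 h'.1.1 hne
  have s2 := branch_subset_branch hH h'.1.1 h.1.1 (Ne.symm hne)
  obtain ⟨y, hy, a⟩ := h.2.resolve_left fun e => e (h'.1.2.subset s1)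
  obtain ⟨y', hy', a'⟩ := h'.2.resolve_left fun e => e (h.1.2.subset s2)
  obtain rfl : y = y' := hU (le_antisymm (a' y (s1 hy)) (a y' (s2 hy')))
  exact not_mem_branch_of_adj hH h.1.1 h'.1.1 hne (mem_branch_of_mem h'.1.1.ne' hy' hy)

lemma core_or_out (U : V → ℝ) {v w : V} (h : H.Adj v w) :
    Core H v w ∨ Out H U v w ∨ Out H U w v := by
  by_cases h1 : (branch H v w).Finite <;> by_cases h2 : (branch H w v).Finite
  · obtain ⟨y, hy, a⟩ := Set.exists_max_image _ U (h1.union h2) ⟨w, Or.inl (self_mem_branch _ _)⟩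
    rcases hy with hy | hy
    · exact .inr (.inl ⟨⟨h, h2⟩, .inr ⟨y, hy, fun x hx => a x (.inr hx)⟩⟩)
    · exact .inr (.inr ⟨⟨h.symm, h1⟩, .inr ⟨y, hy, fun x hx => a x (.inl hx)⟩⟩)
  · exact .inr (.inr ⟨⟨h.symm, h1⟩, .inl h2⟩)
  · exact .inr (.inl ⟨⟨h, h2⟩, .inl h1⟩)
  · exact .inl ⟨h, h1, h2⟩

lemma lat_eq (hG : G.IsTree) (U : V → ℝ) (r : V) (a : Fin k) :
    ∃ x : V → Fin k, IsSection (tr k G U) (conn k (tr k G U) U) x ∧ x r = a ∧
      lat k G U r a = lines k (tr k G U) U fun v b => b = x v := by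
  obtain ⟨x, hx, hxr⟩ := exists_section (g := conn k (tr k G U) U) hG r a
  refine ⟨x, fun v w h => hx v w h.1, hxr, ?_⟩
  unfold lat
  congr 1
  funext v b
  rw [← hxr]
  exact propext (reach_iff hG.connected.preconnected hx r v b)

lemma lat_encard (hG : G.IsTree) (hf : ∀ v, (G.neighborSet v).Finite)
    (hU : Function.Injective U) (r : V) (a : Fin k) (v : V) :
    ((lat k G U r a).neighborSet v).encard = 0 ∨ ((lat k G U r a).neighborSet v).encard = 2 := by
  obtain ⟨x, hx, -, heq⟩ := lat_eq hG U r a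
  rw [heq]
  rcases Nat.lt_or_ge (x v : ℕ) (coreNbr (tr k G U) v).ncard with h | h
  · exact Or.inr (encard_lines_of_lt (hG.isAcyclic.anti tr_le) (fun v => tr_deg (hf v) hU) hU hx v h)
  · left
    rw [neighborSet_lines_of_le (hG.isAcyclic.anti tr_le) (fun v => tr_deg (hf v) hU) hx v h,
      Set.encard_empty]

lemma lat_root (hG : G.IsTree) (hf : ∀ v, (G.neighborSet v).Finite) (hU : Function.Injective U)
    (r : V) (a : Fin k) (h : (a : ℕ) < (coreNbr (tr k G U) r).ncard) :
    ∃ w, (lat k G U r a).Adj r w := by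
  obtain ⟨x, hx, hxr, heq⟩ := lat_eq hG U r a
  rw [heq]
  have h2 := encard_lines_of_lt (hG.isAcyclic.anti tr_le) (fun v => tr_deg (hf v) hU) hU hx r
    (by rw [hxr]; exact h)
  have : ((lines k (tr k G U) U fun v b => b = x v).neighborSet r).Nonempty := by
    rw [← Set.encard_ne_zero, h2]; decide
  exact this

lemma sum_lat {M : Type*} [AddCommMonoid M] (hG : G.IsTree) (U : V → ℝ) (r r' : V)
    (Φ : SimpleGraph V → M) : ∑ a : Fin k, Φ (lat k G U r a) = ∑ a : Fin k, Φ (lat k G U r' a) :=
  sum_reach_eq (g := conn k (tr k G U) U) hG r r' fun S => Φ (lines k (tr k G U) U S)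

lemma dl_iso (φ : G ≃g G') (hU : ∀ v, U' (φ v) = U v) (v w : V) :
    Dl k G' U' (φ v) (φ w) ↔ Dl k G U v w := by
  refine and_congr φ.map_rel_iff (iff_of_eq (congrArg _ ?_))
  unfold rk
  rw [← Set.ncard_image_of_injective {u | u ∈ G.neighborSet v ∧ U u < U w} φ.injective]
  congr 1
  ext y
  obtain ⟨x, rfl⟩ := φ.surjective y
  rw [φ.injective.mem_set_image]
  simp only [Set.mem_ofPred_eq, hU]
  exact and_congr_left' φ.map_rel_iff

/-- An isomorphism that respects the labels is an isomorphism of the truncated forests. -/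
def trIso (k : ℕ) (φ : G ≃g G') (hU : ∀ v, U' (φ v) = U v) : tr k G U ≃g tr k G' U' where
  toEquiv := φ.toEquiv
  map_rel_iff' := and_congr φ.map_rel_iff (and_congr (dl_iso φ hU _ _).not (dl_iso φ hU _ _).not)

lemma out_iso (φ : H ≃g H') (hU : ∀ v, U' (φ v) = U v) (v w : V) :
    Out H' U' (φ v) (φ w) ↔ Out H U v w := by
  simp only [Out, par_iso, Set.Infinite, branch_finite_iso]
  simp only [branch_iso, Set.forall_mem_image, Set.exists_mem_image, hU]

lemma lat_iso (φ : G ≃g G') (hU : ∀ v, U' (φ v) = U v) (r : V) (a : Fin k) (v w : V) :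
    (lat k G' U' (φ r) a).Adj (φ v) (φ w) ↔ (lat k G U r a).Adj v w := by
  have h1 : ∀ v w, conn k (tr k G' U') U' (φ v) (φ w) = conn k (tr k G U) U v w :=
    conn_iso (trIso k φ hU) hU
  have h2 : ∀ v w, Core (tr k G' U') (φ v) (φ w) ↔ Core (tr k G U) v w := core_iso (trIso k φ hU)
  simp only [lat, lines, IsOn, h1, h2, reach_iso φ h1]

section Meas

variable {Ω : Type*} [MeasurableSpace Ω] {A : Ω → SimpleGraph ℕ} {Y : Ω → ℕ → ℝ}

lemma measurable_dl (hA : Measurable A) (hY : Measurable Y) (v w : ℕ) :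
    Measurable fun ω => Dl k (A ω) (Y ω) v w := by
  have h2 : Measurable fun ω => rk ((A ω).neighborSet v) (Y ω) w := by
    refine measurable_ncard.comp (measurable_set_iff.2 fun u => ?_)
    exact (measurable_adj' hA v u).and (measurableSet_setOfPred.1
      (measurableSet_lt ((measurable_pi_apply u).comp hY) ((measurable_pi_apply w).comp hY)))
  exact (measurable_adj' hA v w).and ((Measurable.of_discrete (f := fun n : ℕ => k ≤ n)).comp h2)

lemma measurable_tr (hA : Measurable A) (hY : Measurable Y) :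
    Measurable fun ω => tr k (A ω) (Y ω) :=
  measurable_iff_adj.2 fun v w => (measurable_adj' hA v w).and
    ((measurable_dl hA hY v w).not.and (measurable_dl hA hY w v).not)

lemma measurable_out (hA : Measurable A) (hY : Measurable Y) (v w : ℕ) :
    Measurable fun ω => Out (A ω) (Y ω) v w :=
  (measurable_par hA v w).and ((measurable_finite (measurable_branch hA v w)).not.or
    (Measurable.exists fun y => (measurable_set_iff.1 (measurable_branch hA v w) y).and
      (Measurable.forall fun x => (measurable_set_iff.1 (measurable_branch hA w v) x).imp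
        (measurableSet_setOfPred.1 (measurableSet_le ((measurable_pi_apply x).comp hY)
          ((measurable_pi_apply y).comp hY))))))

lemma measurable_lat (hA : Measurable A) (hY : Measurable Y) {r : Ω → ℕ} (hr : Measurable r)
    (a : Fin k) : Measurable fun ω => lat k (A ω) (Y ω) (r ω) a := by
  refine measurable_at (f := fun r ω => lat k (A ω) (Y ω) r a) (fun r => ?_) hr
  have hT := measurable_tr (k := k) hA hY
  have hR : ∀ v b, Measurable fun ω => Reach (A ω) (conn k (tr k (A ω) (Y ω)) (Y ω)) r a v b := by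
    intro v b
    refine measurable_reflTransGen (r := fun ω => Step (A ω) (conn k (tr k (A ω) (Y ω)) (Y ω)))
      (fun p q => (measurable_adj' hA p.1 q.1).and ?_) _ _
    have h3 : Measurable fun z : Fin k × Fin k => z.1 = z.2 := Measurable.of_discrete
    exact h3.comp ((measurable_conn hT hY p.1 q.1 p.2).prodMk (measurable_conn hT hY q.1 p.1 q.2))
  have hOn : ∀ v w, Measurable fun ω => IsOn k (tr k (A ω) (Y ω)) (Y ω)
      (Reach (A ω) (conn k (tr k (A ω) (Y ω)) (Y ω)) r a) v w := by
    intro v w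
    refine (measurable_core hT v w).and (Measurable.exists fun b => (hR v b).and ?_)
    have h3 : Measurable fun z : Fin k => (z : ℕ) < 2 := Measurable.of_discrete
    exact h3.comp (measurable_conn hT hY v w b)
  exact measurable_iff_adj.2 fun v w => (hOn v w).and (hOn w v)

end Meas

lemma cnt_le_add {P Q R S : ℕ → Prop} (h : ∀ v, P v → Q v ∨ R v ∨ S v) :
    cnt P ≤ cnt Q + (cnt R + cnt S) := by
  have h1 : {v | P v} ⊆ {v | Q v} ∪ ({v | R v} ∪ {v | S v}) := h
  have := (Set.encard_le_encard h1).trans ((Set.encard_union_le _ _).trans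
    (add_le_add le_rfl (Set.encard_union_le _ _)))
  unfold cnt
  exact_mod_cast this

lemma cnt_out_add_le {H : SimpleGraph ℕ} {U : ℕ → ℝ} (hH : H.IsAcyclic)
    (hU : Function.Injective U) (o : ℕ) (hdeg : (H.neighborSet o).encard ≤ k) :
    cnt (H.Adj o) + k * cnt (Out H U o) ≤ k + (cnt (Out H U o) + cnt fun v => Out H U v o) := by
  by_cases h : ∃ w, Out H U o w
  · obtain ⟨w, hw⟩ := h
    have h1 : cnt (Out H U o) = 1 := cnt_eq_one hw fun a b ha hb => ha.unique hH hU hb
    have h2 : cnt (Core H o) = 0 := cnt_eq_zero fun a => hw.1.not_core hH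
    have h3 := cnt_le_add fun v (hv : H.Adj o v) => core_or_out U hv
    rw [h2, zero_add] at h3
    rw [add_comm]
    refine add_le_add ?_ h3
    rw [h1, mul_one]
  · push Not at h
    rw [cnt_eq_zero h, mul_zero, add_zero]
    refine le_add_right ?_
    unfold cnt
    exact_mod_cast hdeg

end Pool.Agent.Work.MP_f65c66_pr
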