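import Pool.Agent.Work.MP_f65c66_pr.Hedge.Low
import Pool.Agent.Work.MP_f65c66_pr.Hedge.Bi

/-!
The biregular trees show that the constant `1 / 2` cannot be improved.
-/

open SimpleGraph MeasureTheory Monoid
open scoped ENNReal

namespace Pool.Agent.Work.MP_f65c66_pr

lemma measurable_ncard_eq {Ω : Type*} [MeasurableSpace Ω] {G : Ω → SimpleGraph ℕ} {u : Ω → ℕ}
    (hG : Measurable G) (hu : Measurable u) (b : ℕ) :
    Measurable fun ω => ((G ω).neighborSet (u ω)).ncard = b :=
  measurable_at (f := fun (v : ℕ) ω => ((G ω).neighborSet v).ncard = b)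
    (fun v => (Measurable.of_discrete (f := fun n : ℕ∞ => n.toNat = b)).comp
      (measurable_encard.comp (measurable_neighborSet hG v))) hu

/-- If every edge has an end of degree `b`, lines spend half of their time at such vertices. -/
lemma density_le {ν : Measure (SimpleGraph ℕ × SimpleGraph ℕ × ℕ)} (hν : IsUnimodularMarked ν)
    (hl : ∀ᵐ q ∂ν, IsLineEnsemble q.1 q.2.1) {b : ℕ}
    (hb : ∀ᵐ q ∂ν, ∀ u v, q.1.Adj u v →
      (q.1.neighborSet u).ncard = b ∨ (q.1.neighborSet v).ncard = b) :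
    ν {q | ∃ w, q.2.1.Adj q.2.2 w} ≤ 2 * ν {q | (q.1.neighborSet q.2.2).ncard = b} := by
  have mB : MeasurableSet
      {q : SimpleGraph ℕ × SimpleGraph ℕ × ℕ | (q.1.neighborSet q.2.2).ncard = b} :=
    (measurable_ncard_eq measurable_fst measurable_snd.snd b).setOf
  have mF : MeasurableSet {q : SimpleGraph ℕ × SimpleGraph ℕ × ℕ × ℕ |
      q.2.1.Adj q.2.2.1 q.2.2.2 ∧ ¬ (q.1.neighborSet q.2.2.1).ncard = b} :=
    ((measurable_rel (R := SimpleGraph.Adj) (measurable_adj' measurable_id) measurable_snd.fst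
      measurable_snd.snd.fst measurable_snd.snd.snd).and
      (measurable_ncard_eq measurable_fst measurable_snd.snd.fst b).not).setOf
  have key : ∫⁻ q, cnt (fun v => q.2.1.Adj q.2.2 v ∧ ¬ (q.1.neighborSet q.2.2).ncard = b) ∂ν =
      ∫⁻ q, cnt (fun v => q.2.1.Adj v q.2.2 ∧ ¬ (q.1.neighborSet v).ncard = b) ∂ν := by
    simp only [← tsum_indicator_eq_cnt]
    refine hν _ (measurable_one.indicator mF) fun G G' L L' φ h u v => ?_
    classical
    simp only [Set.indicator_apply, Set.mem_ofPred_eq, h, Pi.one_apply, Set.ncard_def,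
      encard_neighborSet_iso]
  have mA := measurableSet_meets
  set A := {q : SimpleGraph ℕ × SimpleGraph ℕ × ℕ | ∃ w, q.2.1.Adj q.2.2 w}
  set B := {q : SimpleGraph ℕ × SimpleGraph ℕ × ℕ | (q.1.neighborSet q.2.2).ncard = b}
  have h1 : 2 * ν A ≤ 2 * ν B +
      ∫⁻ q, cnt (fun v => q.2.1.Adj q.2.2 v ∧ ¬ (q.1.neighborSet q.2.2).ncard = b) ∂ν := by
    rw [← lintegral_indicator_one mA, ← lintegral_indicator_one mB,
      ← lintegral_const_mul' _ _ (by simp), ← lintegral_const_mul' _ _ (by simp),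
      ← lintegral_add_left ((measurable_one.indicator mB).const_mul 2)]
    refine lintegral_mono_ae ?_
    filter_upwards [hl] with q hq
    by_cases a : q ∈ A
    · by_cases c : q ∈ B
      · simp [a, c]
      · obtain ⟨w, hw⟩ := id a
        have e : (q.2.1.neighborSet q.2.2).encard = 2 :=
          (hq.2 _).resolve_left (Set.encard_ne_zero.2 ⟨w, hw⟩)
        have c' : ¬ (q.1.neighborSet q.2.2).ncard = b := c
        simp only [Set.indicator_of_mem a, Set.indicator_of_notMem c, cnt, c', not_false_eq_true,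
          and_true]
        change _ ≤ _ + ((q.2.1.neighborSet q.2.2).encard : ℝ≥0∞)
        simp [e]
    · simp [a]
  have h2 : ∫⁻ q, cnt (fun v => q.2.1.Adj v q.2.2 ∧ ¬ (q.1.neighborSet v).ncard = b) ∂ν ≤
      2 * ν B := by
    rw [← lintegral_indicator_one mB, ← lintegral_const_mul' _ _ (by simp)]
    refine lintegral_mono_ae ?_
    filter_upwards [hl, hb] with q hq hq'
    by_cases c : q ∈ B
    · have e : {v | q.2.1.Adj v q.2.2 ∧ ¬ (q.1.neighborSet v).ncard = b}.encard ≤ 2 :=
        (Set.encard_le_encard (t := q.2.1.neighborSet q.2.2) fun v hv => hv.1.symm).trans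
          (by rcases hq.2 q.2.2 with e | e <;> simp [e])
      simp only [Set.indicator_of_mem c, cnt, Pi.one_apply, mul_one]
      exact_mod_cast e
    · rw [cnt_eq_zero fun v hv => c ((hq' _ _ (hq.1 hv.1)).resolve_left hv.2)]
      exact zero_le
  rw [key] at h1
  refine (ENNReal.mul_le_mul_iff_right (a := 2) (by simp) (by simp)).1 ?_
  refine (h1.trans (add_le_add_right h2 _)).trans_eq (by ring)

lemma singleton_graph : MeasurableSingletonClass (SimpleGraph ℕ) := ⟨fun G => by
  have : {G} = {G' : SimpleGraph ℕ | ∀ u v, G'.Adj u v ↔ G.Adj u v} := by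
    ext G'
    simp [SimpleGraph.ext_iff, funext_iff]
  rw [this]
  exact (Measurable.forall fun u => Measurable.forall fun v =>
    (measurable_adj' measurable_id u v).iff measurable_const).setOf⟩

/-- The statement with constant `c`. -/
def Bound (c : ℝ) : Prop :=
  ∀ μ : Measure (SimpleGraph ℕ × ℕ), IsProbabilityMeasure μ → (∀ᵐ p ∂μ, p.1.IsTree) →
    IsUnimodular μ → (∀ᵐ p ∂μ, (p.1.neighborSet p.2).Finite) →
    Integrable (fun p => ((p.1.neighborSet p.2).ncard : ℝ) ^ 2) μ →
    ∃ ν : Measure (SimpleGraph ℕ × SimpleGraph ℕ × ℕ), IsProbabilityMeasure ν ∧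
      ν.map (fun q => (q.1, q.2.2)) = μ ∧ (∀ᵐ q ∂ν, IsLineEnsemble q.1 q.2.1) ∧
      IsUnimodularMarked ν ∧
      c * (max ((∫ p, ((p.1.neighborSet p.2).ncard : ℝ) ∂μ) - 2) 0 ^ 2 /
        ∫ p, ((p.1.neighborSet p.2).ncard : ℝ) ^ 2 ∂μ) ≤ ν.real {q | ∃ w, q.2.1.Adj q.2.2 w}

lemma bireg {c : ℝ} (hc : Bound c) {a b : ℕ} (ha : 2 ≤ a) (hab : a < b) :
    c * (max (2 * (a : ℝ) * b / (a + b) - 2) 0 ^ 2 / (a * b)) ≤ 2 * a / (a + b) := by
  classical
  let n : Bool → ℕ := fun t => cond t b a
  have n2 : ∀ t, 1 < n t := fun t => by cases t <;> simp [n] <;> omega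
  have i1 : ∀ t, Fact (1 < n t) := fun t => ⟨n2 t⟩
  have i2 : ∀ t, NeZero (n t) := fun t => ⟨by have := n2 t; omega⟩
  let M : Bool → Type := fun t => Multiplicative (ZMod (n t))
  have cM : ∀ t, Nat.card (M t) = n t := fun t => by simp [M]
  obtain ⟨C⟩ := exists_cod (M := M)
  have i3 := singleton_graph
  have a0 : (0 : ℝ) < a := by exact_mod_cast (by omega : 0 < a)
  have b0 : (0 : ℝ) < b := by exact_mod_cast (by omega : 0 < b)
  set Z : ℝ≥0∞ := ENNReal.ofReal (a * b / (a + b)) with hZ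
  have fin : ∀ t, Z * (Nat.card (M t) : ℝ≥0∞)⁻¹ ≠ ∞ := fun t =>
    ENNReal.mul_ne_top (by simp [hZ]) (by simp)
  have int : ∀ f : SimpleGraph ℕ × ℕ → ℝ, Integrable f (C.law Z) := fun f =>
    integrable_finsetSum_measure.2 fun t _ => (integrable_dirac (by simp)).smul_measure (fin t)
  have val : ∀ f : ℕ → ℝ, ∫ p, f (p.1.neighborSet p.2).ncard ∂C.law Z =
      (a * f b + b * f a) / (a + b) := fun f => by
    unfold Cod.law
    rw [integral_finsetSum_measure fun t _ => (integrable_dirac (by simp)).smul_measure (fin t)]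
    simp only [integral_smul_measure, integral_dirac, C.deg, cM, Fintype.sum_bool, n, cond,
      ENNReal.toReal_mul, ENNReal.toReal_inv, ENNReal.toReal_natCast, hZ, smul_eq_mul]
    rw [ENNReal.toReal_ofReal (by positivity)]
    field_simp
  have ae : ∀ᵐ p ∂C.law Z, p.1 = C.gr := by
    unfold Cod.law
    rw [ae_finsetSum_measure_iff]
    exact fun t _ => Measure.ae_smul_measure (by simp [ae_dirac_eq]) _
  have prob : IsProbabilityMeasure (C.law Z) := by
    have h := val fun _ => 1
    simp only [integral_const, smul_eq_mul, mul_one, div_self (add_pos a0 b0).ne'] at h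
    exact isProbabilityMeasure_iff_real.2 h
  have deg : ∀ v, (C.gr.neighborSet v).Finite := fun v => by
    obtain ⟨t, g, rfl⟩ := C.surj v
    rw [C.nbr]
    exact Set.finite_range _
  obtain ⟨ν, _, h1, h2, h3, h4⟩ := hc _ prob (ae.mono fun p hp => hp ▸ C.isTree) (C.unimodular Z)
    (ae.mono fun p hp => hp ▸ deg _) (int _)
  have hm : Measurable fun q : SimpleGraph ℕ × SimpleGraph ℕ × ℕ => (q.1, q.2.2) := by fun_prop
  have h5 := density_le h3 h2 (b := b) (by
    filter_upwards [ae_of_ae_map hm.aemeasurable (h1 ▸ ae)] with q hq u v huv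
    rw [hq] at huv ⊢
    obtain ⟨t, g, rfl, rfl⟩ := huv
    rw [C.deg, C.deg, cM, cM]
    cases t <;> simp [n])
  have mB : MeasurableSet {p : SimpleGraph ℕ × ℕ | (p.1.neighborSet p.2).ncard = b} :=
    (measurable_ncard_eq measurable_fst measurable_snd b).setOf
  have h6 : ν.real {q | (q.1.neighborSet q.2.2).ncard = b} = a / (a + b) := by
    have h := val fun d => if d = b then 1 else 0
    simp only [if_true, hab.ne, if_false, mul_one, mul_zero, add_zero] at h
    rw [← h, ← h1, measureReal_def]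
    refine (congrArg _ (Measure.map_apply hm mB).symm).trans ?_
    rw [← measureReal_def, ← integral_indicator_one mB]
    simp only [Set.indicator_apply, Set.mem_ofPred_eq, Pi.one_apply]
  have h7 := ENNReal.toReal_mono (by simp [ENNReal.mul_ne_top]) h5
  rw [ENNReal.toReal_mul, ← measureReal_def, ← measureReal_def, h6] at h7
  rw [val fun d => (d : ℝ), val fun d => (d : ℝ) ^ 2] at h4
  have e1 : ((a : ℝ) * b + b * a) / (a + b) = 2 * a * b / (a + b) := by ring
  have e2 : ((a : ℝ) * b ^ 2 + b * a ^ 2) / (a + b) = a * b := by field_simp; ring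
  rw [e1, e2] at h4
  refine (h4.trans h7).trans_eq ?_
  simp [mul_div_assoc]

theorem up {c : ℝ} (hc : Bound c) : c ≤ 1 / 2 := by
  by_contra h
  have h0 : 0 < 2 * c - 1 := by linarith [not_le.1 h]
  obtain ⟨a, ha⟩ := exists_nat_gt ((6 * c + 1) / (2 * c - 1))
  rw [div_lt_iff₀ h0] at ha
  have a3 : (3 : ℝ) < a := by nlinarith
  have a3' : 3 < a := by exact_mod_cast a3
  have key := bireg hc (a := a) (b := a ^ 2) (by omega) (by nlinarith)
  push_cast at key
  generalize (a : ℝ) = x at ha a3 key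
  have x0 : 0 < x := by linarith
  have e1 : 2 * x * x ^ 2 / (x + x ^ 2) - 2 = 2 * (x ^ 2 - x - 1) / (1 + x) := by
    field_simp
    ring
  have e2 : 2 * x / (x + x ^ 2) = 2 / (1 + x) := by field_simp
  rw [e1, e2, max_eq_left (div_nonneg (by nlinarith) (by linarith)), div_pow, div_div,
    ← mul_div_assoc, div_le_div_iff₀ (by positivity) (by positivity)] at key
  have k2 : (1 + x) * (2 * c * (x ^ 2 - x - 1) ^ 2) ≤ (1 + x) * ((1 + x) * x ^ 3) := by linarith
  have k3 := le_of_mul_le_mul_left k2 (by linarith)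
  have k4 : x ^ 3 * (x - 3) ≤ (x ^ 2 - x - 1) ^ 2 := by nlinarith [pow_pos x0 2, pow_pos x0 3]
  have k5 := (mul_le_mul_of_nonneg_left k4 (by linarith : 0 ≤ 2 * c)).trans k3
  nlinarith [mul_pos (pow_pos x0 3) (sub_pos.2 ha)]

end Pool.Agent.Work.MP_f65c66_pr
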